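import Pool.Agent.helper23.CU.Spec

open Finset Filter Topology

namespace CU

section

variable {d n : ℕ} [NeZero n]

theorem BR_sg (a b : Bool) : sg a * sg b = 1 - 2 * (if a ≠ b then (1 : ℝ) else 0) := by
  cases a <;> cases b <;> norm_num [sg]

theorem BR_wt (β : ℝ) (σ : Conf d n) :
    wt β 0 σ = Real.exp (β * (Fintype.card (Edge d n) : ℝ)) * W β σ := by
  unfold wt W
  rw [← Real.exp_add]
  congr 1
  have h1 : ∑ x : Site d n, ∑ i : Fin d, sg (σ x) * sg (σ (x + ev i)) =
      (Fintype.card (Edge d n) : ℝ) - 2 * ((brk σ).card : ℝ) := by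
    rw [← Fintype.sum_prod_type' (f := fun (x : Site d n) (i : Fin d) => sg (σ x) * sg (σ (x + ev i)))]
    simp_rw [BR_sg]
    rw [Finset.sum_sub_distrib, ← Finset.mul_sum, Finset.sum_boole]
    simp [brk]
  rw [h1]
  ring

theorem BR_Wpos (β : ℝ) (σ : Conf d n) : 0 < W β σ := Real.exp_pos _

theorem BR_gibbs (β : ℝ) (σ : Conf d n) :
    gibbs β 0 σ = W β σ / ∑ η : Conf d n, W β η := by
  unfold gibbs
  simp_rw [BR_wt]
  rw [← Finset.mul_sum, mul_div_mul_left _ _ (Real.exp_pos _).ne']

theorem BR_Ex (β : ℝ) (f : Conf d n → ℝ) : Ex β f = ∑ η : Conf d n, gibbs β 0 η * f η := by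
  unfold Ex
  simp_rw [BR_gibbs]
  rw [Finset.sum_div]
  refine Finset.sum_congr rfl fun η _ => ?_
  ring

theorem BR_gibbs_sum (β : ℝ) : ∑ η : Conf d n, gibbs β 0 η = 1 := by
  simp_rw [BR_gibbs]
  rw [← Finset.sum_div, div_self]
  exact (Finset.sum_pos (fun η _ => BR_Wpos β η) Finset.univ_nonempty).ne'

theorem BR_K (β : ℝ) (x : Site d n) (f : Conf d n → ℝ) (σ : Conf d n) :
    ∑ η : Conf d n, (if (∀ y, y ≠ x → η y = σ y) then
      wt β 0 η / (wt β 0 (Function.update σ x true) + wt β 0 (Function.update σ x false)) else 0) * f η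
      = Kx β x f σ := by
  have h1 : ∀ η : Conf d n, (∀ y, y ≠ x → η y = σ y) ↔
      η ∈ ({Function.update σ x true, Function.update σ x false} : Finset (Conf d n)) := by
    intro η
    rw [Finset.mem_insert, Finset.mem_singleton]
    constructor
    · intro h
      cases hb : η x
      · right
        funext y
        by_cases hy : y = x
        · subst hy; rw [Function.update_self, hb]
        · rw [Function.update_of_ne hy, h y hy]
      · left
        funext y
        by_cases hy : y = x
        · subst hy; rw [Function.update_self, hb]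
        · rw [Function.update_of_ne hy, h y hy]
    · rintro (h | h) y hy <;> rw [h, Function.update_of_ne hy]
  simp_rw [h1, ite_mul, zero_mul]
  rw [Finset.sum_ite_mem, Finset.univ_inter, Finset.sum_pair]
  · unfold Kx
    simp_rw [BR_wt]
    have hc := Real.exp_pos (β * (Fintype.card (Edge d n) : ℝ))
    have h2 := BR_Wpos β (Function.update σ x true)
    have h3 := BR_Wpos β (Function.update σ x false)
    field_simp
  · intro h
    have := congrFun h x
    rw [Function.update_self, Function.update_self] at this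
    exact absurd this (by decide)

theorem BR_mv (β : ℝ) (f : Conf d n → ℝ) : (glauber β 0).mulVec f = Pf β f := by
  funext σ
  unfold Matrix.mulVec dotProduct glauber Pf
  simp_rw [← BR_K β _ f σ]
  rw [Finset.sum_comm, Finset.sum_div]
  refine Finset.sum_congr rfl fun η _ => ?_
  rw [← Finset.sum_mul]
  ring

theorem BR_mvt (β : ℝ) (t : ℕ) (f : Conf d n → ℝ) :
    ((glauber β 0) ^ t).mulVec f = (Pf β)^[t] f := by
  induction t with
  | zero => simp
  | succ t ih =>
    rw [pow_succ', ← Matrix.mulVec_mulVec, ih, BR_mv, Function.iterate_succ_apply']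

theorem BR_P1 (β : ℝ) (t : ℕ) : (Pf β)^[t] (fun _ : Conf d n => (1 : ℝ)) = fun _ => 1 := by
  induction t with
  | zero => rfl
  | succ t ih =>
    rw [Function.iterate_succ_apply', ih]
    funext σ
    unfold Pf Kx
    simp_rw [mul_one]
    have : ∀ x : Site d n, (W β (Function.update σ x true) + W β (Function.update σ x false)) /
        (W β (Function.update σ x true) + W β (Function.update σ x false)) = 1 := fun x =>
      div_self (add_pos (BR_Wpos β _) (BR_Wpos β _)).ne'
    simp_rw [this]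
    rw [Finset.sum_const, Finset.card_univ, nsmul_eq_mul, mul_one, div_self]
    exact_mod_cast Fintype.card_ne_zero

theorem BR_dual (β : ℝ) (t : ℕ) (f : Conf d n → ℝ) (σ : Conf d n) :
    (Pf β)^[t] f σ - Ex β f = ∑ η : Conf d n, (((glauber β 0) ^ t) σ η - gibbs β 0 η) * f η := by
  rw [← BR_mvt, BR_Ex]
  unfold Matrix.mulVec dotProduct
  rw [← Finset.sum_sub_distrib]
  refine Finset.sum_congr rfl fun η _ => ?_
  ring

theorem BR_zero (β : ℝ) (t : ℕ) (σ : Conf d n) :
    ∑ η : Conf d n, (((glauber β 0) ^ t) σ η - gibbs β 0 η) = 0 := by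
  have h := BR_dual β t (fun _ => 1) σ
  rw [BR_P1, BR_Ex] at h
  simp only [mul_one] at h
  rw [BR_gibbs_sum] at h
  rw [← h]; ring

theorem BR_tv (β : ℝ) (t : ℕ) (σ : Conf d n) :
    (∑ η : Conf d n, |((glauber β 0) ^ t) σ η - gibbs β 0 η|) / 2 =
      ∑ η : Conf d n, (((glauber β 0) ^ t) σ η - gibbs β 0 η) *
        (if 0 < ((glauber β 0) ^ t) σ η - gibbs β 0 η then 1 else 0) := by
  have h0 := BR_zero β t σ
  have h1 : ∀ a : ℝ, |a| = 2 * (a * (if 0 < a then 1 else 0)) - a := by
    intro a
    split_ifs with h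
    · rw [abs_of_pos h]; ring
    · rw [abs_of_nonpos (not_lt.mp h)]; ring
  rw [Finset.sum_congr rfl (fun η _ => h1 (((glauber β 0) ^ t) σ η - gibbs β 0 η)),
    Finset.sum_sub_distrib, h0, ← Finset.mul_sum]
  ring

theorem BR_le (β : ℝ) (t : ℕ) (σ : Conf d n) (f : Conf d n → ℝ) (hf : ∀ η, 0 ≤ f η ∧ f η ≤ 1) :
    (Pf β)^[t] f σ - Ex β f ≤ (∑ η : Conf d n, |((glauber β 0) ^ t) σ η - gibbs β 0 η|) / 2 := by
  rw [BR_dual, BR_tv]
  refine Finset.sum_le_sum fun η _ => ?_
  obtain ⟨h1, h2⟩ := hf η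
  split_ifs with h
  · exact mul_le_mul_of_nonneg_left h2 h.le
  · rw [mul_zero]
    exact mul_nonpos_of_nonpos_of_nonneg (not_lt.mp h) h1

end

theorem BR : BR_stmt := by
  intro d n _ _ β t
  constructor
  · intro c h
    unfold dTV
    refine ciSup_le fun σ => ?_
    rw [BR_tv, ← BR_dual]
    refine h _ (fun η => ?_) σ
    split_ifs <;> norm_num
  · intro f hf σ
    refine (BR_le β t σ f hf).trans ?_
    unfold dTV
    exact le_ciSup (f := fun σ : Conf d n => (∑ η : Conf d n, |((glauber β 0) ^ t) σ η - gibbs β 0 η|) / 2)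
      (Set.finite_range _).bddAbove σ

end CU
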