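import Pool.Agent.helper23.CU.Spec

open Finset Filter Topology

namespace CU

theorem UP (hBR : BR_stmt) (hMON : MON_stmt) (hLIN : LIN_stmt) (hL1 : L1_stmt) (hFLP : FLP_stmt)
    (hREV : REV_stmt) : UP_stmt := by
  intro d n _ hn β hβ s t
  classical
  refine (hBR d n hn β (t + s)).1 _ ?_
  intro f hf σ
  set I : Conf d n → ℝ := (Gm (d := d) (n := n) β s).indicator fun _ => 1 with hI
  have hpt : pt (d := d) (n := n) β s t = (Pf β)^[t] I plus := rfl
  set p : ℝ := (Pf β)^[t] I plus with hp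
  rw [hpt]
  have hconst : ∀ (k : ℕ) (c : ℝ), (Pf β)^[k] (fun _ : Conf d n => c) = fun _ => c := fun k c =>
    (hREV d n β f f k).2 c
  have hadd : ∀ g : Conf d n → ℝ, (Pf β)^[t + s] g = (Pf β)^[t] ((Pf β)^[s] g) := fun g =>
    Function.iterate_add_apply _ _ _ _
  -- monotonicity
  have hg : Monotone (gs β s : Conf d n → ℝ) := by
    refine (hMON d n hn β hβ Mg ?_).2 s
    intro a b hab
    unfold Mg
    refine Finset.sum_le_sum fun x _ => ?_
    have := hab x
    unfold sg
    revert this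
    cases a x <;> cases b x <;> simp
  have hImono : Monotone (fun σ : Conf d n => (-1) * I σ + 0 * I σ) := by
    intro a b hab
    simp only [zero_mul, add_zero, hI, Set.indicator]
    have h1 := hg hab
    have h2 : b ∈ Gm (d := d) (n := n) β s → a ∈ Gm (d := d) (n := n) β s := by
      intro hb
      exact h1.trans hb
    split_ifs with h3 h4 h4
    · exact le_rfl
    · norm_num
    · exact absurd (h2 h4) h3
    · exact le_rfl
  have hPI : ∀ y, p ≤ (Pf β)^[t] I y := by
    intro y
    have h1 := (hMON d n hn β hβ _ hImono).2 t (show y ≤ plus from fun x => by unfold plus; exact le_top)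
    rw [(hLIN d n β I I (-1) 0 t).1] at h1
    simp only [zero_mul, add_zero, neg_mul, one_mul] at h1
    linarith
  -- F
  set F : Conf d n → ℝ := (Pf β)^[s] f with hF
  set m : ℝ := F (flipc plus) with hm
  have hF0 : ∀ z, 0 ≤ F z := by
    intro z
    have h1 := (hLIN d n β (fun _ => 0) f 0 0 s).2.1 (fun η => (hf η).1) z
    rw [hconst] at h1
    exact h1
  have hF1 : ∀ z, F z ≤ 1 := by
    intro z
    have h1 := (hLIN d n β f (fun _ => 1) 0 0 s).2.1 (fun η => (hf η).2) z
    rw [hconst] at h1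
    exact h1
  have hgm : gs β s (flipc plus : Conf d n) = - gs β s (plus : Conf d n) := (hFLP d n β f 0).2.2 s plus
  have hFG : ∀ z ∈ Gm (d := d) (n := n) β s, |F z - m| ≤ 1 / 200 := by
    intro z hz
    have h1 := hL1 d n hn β hβ s f hf (flipc plus) z (fun x => by
      unfold flipc plus; exact bot_le)
    rw [hgm] at h1
    have h2 : gs β s z ≤ - gs β s (plus : Conf d n) + 1 / 100 := hz
    refine h1.trans ?_
    linarith
  have hI01 : ∀ z, I z = 1 ∧ z ∈ Gm (d := d) (n := n) β s ∨ I z = 0 ∧ z ∉ Gm (d := d) (n := n) β s := by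
    intro z
    by_cases h : z ∈ Gm (d := d) (n := n) β s
    · left; exact ⟨Set.indicator_of_mem h _, h⟩
    · right; exact ⟨Set.indicator_of_notMem h _, h⟩
  have hm0 : 0 ≤ m := hF0 _
  have hm1 : m ≤ 1 := hF1 _
  -- upper bound
  have hup : (Pf β)^[t] F σ ≤ 1 - p * (1 - m) + 1 / 200 := by
    have h1 : ∀ z, F z ≤ (-(1 - m)) * I z + (201 / 200) * (fun _ : Conf d n => (1 : ℝ)) z := by
      intro z
      rcases hI01 z with ⟨h2, h3⟩ | ⟨h2, h3⟩
      · rw [h2]
        have := abs_le.1 (hFG z h3)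
        linarith [this.2]
      · rw [h2]
        have := hF1 z
        linarith
    have h2 := (hLIN d n β F _ 0 0 t).2.1 h1 σ
    rw [(hLIN d n β I (fun _ => 1) (-(1 - m)) (201 / 200) t).1, hconst] at h2
    have h3 := hPI σ
    have h4 : p * (1 - m) ≤ (Pf β)^[t] I σ * (1 - m) := mul_le_mul_of_nonneg_right h3 (by linarith)
    linarith
  have hlow : ∀ y, m * p - 1 / 200 ≤ (Pf β)^[t] F y := by
    intro y
    have h1 : ∀ z, m * I z + (-(1 / 200)) * (fun _ : Conf d n => (1 : ℝ)) z ≤ F z := by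
      intro z
      rcases hI01 z with ⟨h2, h3⟩ | ⟨h2, h3⟩
      · rw [h2]
        have := abs_le.1 (hFG z h3)
        linarith [this.1]
      · rw [h2]
        have := hF0 z
        linarith
    have h2 := (hLIN d n β _ F 0 0 t).2.1 h1 y
    rw [(hLIN d n β I (fun _ => 1) m (-(1 / 200)) t).1, hconst] at h2
    have h3 := hPI y
    have h4 : m * p ≤ m * (Pf β)^[t] I y := mul_le_mul_of_nonneg_left h3 hm0
    linarith
  have hEx : m * p - 1 / 200 ≤ Ex β f := by
    have h1 := (hREV d n β (fun _ => 1) f (t + s)).1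
    rw [hconst] at h1
    simp only [one_mul] at h1
    have h2 := (hLIN d n β (fun _ => m * p - 1 / 200) (fun σ => (Pf β)^[t + s] f σ) 0 0 0).2.2.2.1
      (fun y => by rw [hadd]; exact hlow y)
    have h3 := (hLIN d n β f f (m * p - 1 / 200) 0 0).2.2.2.2
    rw [h3, h1] at h2
    exact h2
  rw [hadd]
  have h5 : (Pf β)^[t] ((Pf β)^[s] f) σ = (Pf β)^[t] F σ := rfl
  rw [h5]
  linarith
end CU
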